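import Pool.Agent.Y453.UF.Stm

/-!
# Project UF, task ODD: even symmetric matrices of odd size have even determinant (helper87)
-/

set_option autoImplicit false

namespace Pool.Agent.Y87.UF

theorem odd_aux' (ι : Type) [Fintype ι] [DecidableEq ι] (M : Matrix ι ι (ZMod 2))
    (hs : ∀ i j, M i j = M j i)
    (he : ∀ i, M i i = 0) (ho : Odd (Fintype.card ι)) : M.det = 0 := by
  rw [Matrix.det_apply']
  have h2 : ∀ x : ZMod 2, x + x = 0 := by decide
  have hsgn : ∀ σ : Equiv.Perm ι, (((Equiv.Perm.sign σ : ℤˣ) : ℤ) : ZMod 2) = 1 := by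
    intro σ
    rcases Int.units_eq_one_or (Equiv.Perm.sign σ) with h | h <;> rw [h] <;> decide
  have hterm : ∀ σ : Equiv.Perm ι, ∏ i, M (σ⁻¹ i) i = ∏ i, M (σ i) i := by
    intro σ
    rw [← Equiv.prod_comp σ]
    refine Finset.prod_congr rfl fun i _ => ?_
    have h : σ⁻¹ (σ i) = i := σ.symm_apply_apply i
    rw [h, hs]
  refine Finset.sum_involution (fun σ _ => σ⁻¹) ?_ ?_ (fun _ _ => Finset.mem_univ _)
    (fun σ _ => inv_inv σ)
  · intro σ _
    rw [hsgn, hsgn, hterm, one_mul]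
    exact h2 _
  · intro σ _ hne hinv
    apply hne
    have hsq : σ ^ (2 ^ 1) = 1 := by
      rw [pow_one, sq]
      nth_rewrite 1 [← hinv]
      exact inv_mul_cancel σ
    have : Fact (Nat.Prime 2) := ⟨Nat.prime_two⟩
    obtain ⟨i, hi⟩ := Equiv.Perm.exists_fixed_point_of_prime (p := 2) (n := 1)
      ho.not_two_dvd_nat hsq
    rw [Finset.prod_eq_zero (Finset.mem_univ i) (by rw [hi]; exact he i), mul_zero]

theorem odd_aux (ι : Type) [Fintype ι] [DecidableEq ι] (M : Matrix ι ι ℤ) (hs : M.IsSymm)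
    (he : ∀ i, Even (M i i)) (ho : Odd (Fintype.card ι)) : Even M.det := by
  have h : ((Int.castRingHom (ZMod 2)).mapMatrix M).det = 0 := by
    refine odd_aux' ι _ (fun i j => ?_) (fun i => ?_) ho
    · simp only [RingHom.mapMatrix_apply, Matrix.map_apply]
      rw [hs.apply i j]
    · simp only [RingHom.mapMatrix_apply, Matrix.map_apply]
      exact (ZMod.intCast_eq_zero_iff_even).2 (he i)
  rw [← RingHom.map_det] at h
  exact (ZMod.intCast_eq_zero_iff_even).1 h

theorem odd : Pool.Agent.Y453.UF.S_ODD := odd_aux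

end Pool.Agent.Y87.UF
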